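import Pool.Agent.Run7.h585.VL.Pts

/-!
# Large deviations of the truncated counting functions of `q` points of the projective line

Written by helper585.
-/

set_option autoImplicit false

namespace Run7.h585.VL

open NumberField IsDedekindDomain Finset Filter Topology Module
open Pool.Agent.H691R3 Pool.Agent.W223.AK Pool.Agent.N906.KG Pool.Agent.N170.KG
open Pool.Agent.N401.QP
open Run7.h585.LD Run7.h585.LD.Abs

variable {K : Type} [Field K] [NumberField K] {q : ℕ}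

/-- the points `P` with `h(P) ≤ log B` and gains in `E` -/
def VS (N : Fin q → Projectivization K (Fin 2 → K) → ℝ) (α : Fin q → Fin 2 → K)
    (E : Set (Fin q → ℝ)) (B : ℝ) : Set (Projectivization K (Fin 2 → K)) :=
  {P | Off1 α P ∧ Real.exp (hh P) ≤ B ∧ gn N P ∈ E}

theorem VS_eq (N : Fin q → Projectivization K (Fin 2 → K) → ℝ) (α : Fin q → Fin 2 → K)
    (E : Set (Fin q → ℝ)) {B : ℝ} (hB : 0 < B) :
    VS N α E B = (fun p : PT α => p.1) '' (AS (HP α) (gP N α) E (finrank ℚ K * Real.log B)) := by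
  have hd : (0 : ℝ) < finrank ℚ K := fin_pos
  ext P
  constructor
  · rintro ⟨h1, h2, h3⟩
    refine ⟨⟨P, h1⟩, ⟨?_, h3⟩, rfl⟩
    rw [← Real.le_log_iff_exp_le hB] at h2
    exact mul_le_mul_of_nonneg_left h2 hd.le
  · rintro ⟨p, ⟨h2, h3⟩, rfl⟩
    refine ⟨p.2, ?_, h3⟩
    rw [← Real.le_log_iff_exp_le hB]
    exact le_of_mul_le_mul_left h2 hd

theorem VS_card (N : Fin q → Projectivization K (Fin 2 → K) → ℝ) (α : Fin q → Fin 2 → K)
    (E : Set (Fin q → ℝ)) {B : ℝ} (hB : 0 < B) :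
    (VS N α E B).ncard = (AS (HP α) (gP N α) E (finrank ℚ K * Real.log B)).ncard := by
  rw [VS_eq N α E hB]
  exact Set.ncard_image_of_injective _ Subtype.val_injective

theorem VS_finite (N : Fin q → Projectivization K (Fin 2 → K) → ℝ) (α : Fin q → Fin 2 → K)
    (E : Set (Fin q → ℝ)) (B : ℝ) : (VS N α E B).Finite := by
  rcases le_or_gt B 0 with hB | hB
  · refine Set.Finite.subset Set.finite_empty ?_
    rintro p ⟨-, h1, -⟩
    exact absurd (Real.exp_pos (hh p)) (not_lt.2 (h1.trans hB))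
  · rw [VS_eq N α E hB]
    exact (as_finite (hfin α) E _).image _

section main

variable {κ₁ : ℝ} (hq : 1 ≤ q) (hκ₁ : κ₁ ≤ 1) (h4 : S_BIGQ K q κ₁) {T : Set (Pr K)}
  (hT : T.Finite) {α : Fin q → Fin 2 → K} (hα0 : ∀ i, α i ≠ 0)
  (hα : ∀ i j, i ≠ j → α i 0 * α j 1 - α i 1 * α j 0 ≠ 0)
  {N : Fin q → Projectivization K (Fin 2 → K) → ℝ} {C : ℝ} (hN : Cnt T α N C)

include hq hκ₁ h4 hT hα0 hα hN

/-- the large deviation law -/
theorem law {E : Set (Fin q → ℝ)} (hE : IsClosed E) {κ : Fin q → ℝ} (hκ0 : ∀ l, 0 ≤ κ l)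
    (hκs : 0 < ∑ l, κ l) (hκs1 : ∑ l, κ l < κ₁) {η : ℝ} (hη : 0 < η)
    (hb : ∀ g : Fin q → ℝ, (∀ l, κ l ≤ g l ∧ g l ≤ κ l + η) → g ∈ E)
    (h1 : ∀ g ∈ E, (∀ l, 0 ≤ g l) → (∀ l, g l ≤ 1) → ∑ l, κ l ≤ ∑ l, g l)
    (h2 : ∀ g ∈ E, (∀ l, 0 ≤ g l) → (∀ l, g l ≤ 1) → ∑ l, g l = ∑ l, κ l →
      ∑ l, √(g l) ≤ ∑ l, √(κ l)) :
    Tendsto (fun B : ℝ => (Real.log ((VS N α E B).ncard : ℝ) -
        finrank ℚ K * (2 - ∑ l, κ l) * Real.log B) / √(Real.log B / Real.log (Real.log B))) atTop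
      (𝓝 (∑ l, √(8 * κ l * finrank ℚ K))) := by
  have hd : (0 : ℝ) < finrank ℚ K := fin_pos
  have h := ab_lim (hfin α) (g0 N α) (g1 N α) (ub hq hκ₁ h4 hT hα0 hα hN)
    (lb hq hκ₁ hT hα0 hα hN) hκ₁ hE hκ0 hκs hκs1 hη hb h1 h2
  have h5 := (lim_scale hd h).comp Real.tendsto_log_atTop
  have e1 : √(finrank ℚ K : ℝ) * (√8 * ∑ l, √(κ l)) = ∑ l, √(8 * κ l * finrank ℚ K) := by
    rw [Finset.mul_sum, Finset.mul_sum]
    refine Finset.sum_congr rfl fun l _ => ?_
    rw [← Real.sqrt_mul (by norm_num), ← Real.sqrt_mul hd.le]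
    congr 1
    ring
  rw [e1] at h5
  refine h5.congr' ?_
  filter_upwards [eventually_gt_atTop (0 : ℝ)] with B hB
  simp only [Function.comp_apply]
  rw [VS_card N α E hB]

/-- the typical structure -/
theorem typ {E : Set (Fin q → ℝ)} (hE : IsClosed E) {κ : Fin q → ℝ} (hκ0 : ∀ l, 0 ≤ κ l)
    (hκs : 0 < ∑ l, κ l) (hκs1 : ∑ l, κ l < κ₁) {η : ℝ} (hη : 0 < η)
    (hb : ∀ g : Fin q → ℝ, (∀ l, κ l ≤ g l ∧ g l ≤ κ l + η) → g ∈ E)
    (h1 : ∀ g ∈ E, (∀ l, 0 ≤ g l) → (∀ l, g l ≤ 1) → ∑ l, κ l ≤ ∑ l, g l)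
    (h2 : ∀ g ∈ E, (∀ l, 0 ≤ g l) → (∀ l, g l ≤ 1) → ∑ l, g l = ∑ l, κ l →
      ∑ l, √(g l) ≤ ∑ l, √(κ l)) {U : Set (Fin q → ℝ)} (hU : IsOpen U)
    (h3 : ∀ g ∈ E, (∀ l, 0 ≤ g l) → (∀ l, g l ≤ 1) → ∑ l, g l = ∑ l, κ l →
      ∑ l, √(g l) = ∑ l, √(κ l) → g ∈ U) :
    ∃ δ : ℝ, 0 < δ ∧ ∀ᶠ B : ℝ in atTop, ((VS N α (E \ U) B).ncard : ℝ) ≤
      Real.exp (-(δ * √(Real.log B / Real.log (Real.log B)))) * ((VS N α E B).ncard : ℝ) := by
  have hd : (0 : ℝ) < finrank ℚ K := fin_pos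
  obtain ⟨δ, hδ, X₀, -, h⟩ := ab_conc (hfin α) (g0 N α) (g1 N α) (ub hq hκ₁ h4 hT hα0 hα hN)
    (lb hq hκ₁ hT hα0 hα hN) hκ₁ hE hκ0 hκs hκs1 hη hb h1 h2 hU h3
  obtain ⟨δ', hδ', L₀, h5⟩ := exp_scale hd
    (N := fun X => ((AS (HP α) (gP N α) (E \ U) X).ncard : ℝ))
    (M := fun X => ((AS (HP α) (gP N α) E X).ncard : ℝ)) (fun _ => Nat.cast_nonneg _) hδ h
  refine ⟨δ', hδ', ?_⟩
  filter_upwards [eventually_gt_atTop (0 : ℝ), Real.tendsto_log_atTop.eventually_ge_atTop L₀]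
    with B hB hL
  rw [VS_card N α _ hB, VS_card N α _ hB]
  exact h5 _ hL

end main

/-! ### Vojta's inequality -/

/-- the points `P` with `h(P) ≤ log B` and `∑ N l P ≤ (q - t) h(P) + c` -/
def VJ (N : Fin q → Projectivization K (Fin 2 → K) → ℝ) (α : Fin q → Fin 2 → K)
    (t c B : ℝ) : Set (Projectivization K (Fin 2 → K)) :=
  {P | Off1 α P ∧ Real.exp (hh P) ≤ B ∧ ∑ l, N l P ≤ ((q : ℝ) - t) * hh P + c}

/-- those for which one of the `N l P` is not close to `(1 - t / q) h(P)` -/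
def VB (N : Fin q → Projectivization K (Fin 2 → K) → ℝ) (α : Fin q → Fin 2 → K)
    (t c ε B : ℝ) : Set (Projectivization K (Fin 2 → K)) :=
  {P | P ∈ VJ N α t c B ∧ ∃ l, ε * hh P < |N l P - (1 - t / q) * hh P|}

theorem VJ_finite (N : Fin q → Projectivization K (Fin 2 → K) → ℝ) (α : Fin q → Fin 2 → K)
    (t c B : ℝ) : (VJ N α t c B).Finite := by
  refine (VS_finite N α Set.univ B).subset ?_
  rintro P ⟨h1, h2, -⟩
  exact ⟨h1, h2, trivial⟩

theorem sq_eq {t : ℝ} (ht : 0 ≤ t) (hq : 0 < q) {g : Fin q → ℝ} (hg : ∀ l, 0 ≤ g l)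
    (hs : ∑ l, g l = t) :
    ∑ l, (√(g l) - √(t / q)) ^ 2 = 2 * √(t / q) * (q * √(t / q) - ∑ l, √(g l)) := by
  have hqR : (0 : ℝ) < q := by exact_mod_cast hq
  have h1 : √(t / q) ^ 2 = t / q := Real.sq_sqrt (by positivity)
  have h2 : ∀ l, (√(g l) - √(t / q)) ^ 2 = g l - 2 * √(t / q) * √(g l) + √(t / q) ^ 2 := by
    intro l
    have := Real.sq_sqrt (hg l)
    linear_combination this
  simp only [h2]
  rw [Finset.sum_add_distrib, Finset.sum_sub_distrib, hs, ← Finset.mul_sum, Finset.sum_const,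
    Finset.card_univ, Fintype.card_fin, nsmul_eq_mul]
  have h3 : (q : ℝ) * √(t / q) ^ 2 = t := by
    rw [h1, mul_div_cancel₀ _ hqR.ne']
  linear_combination -h3

theorem max_le_q {t : ℝ} (ht : 0 < t) (hq : 0 < q) {g : Fin q → ℝ} (hg : ∀ l, 0 ≤ g l)
    (hs : ∑ l, g l = t) : ∑ l, √(g l) ≤ q * √(t / q) := by
  have hqR : (0 : ℝ) < q := by exact_mod_cast hq
  have h1 := sq_eq ht.le hq hg hs
  have h2 : 0 ≤ ∑ l, (√(g l) - √(t / q)) ^ 2 := Finset.sum_nonneg fun l _ => sq_nonneg _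
  have h3 : 0 < 2 * √(t / q) := by positivity
  rw [h1] at h2
  have := nonneg_of_mul_nonneg_right h2 h3
  linarith

theorem eq_of_max {t : ℝ} (ht : 0 < t) (hq : 0 < q) {g : Fin q → ℝ} (hg : ∀ l, 0 ≤ g l)
    (hs : ∑ l, g l = t) (hm : ∑ l, √(g l) = q * √(t / q)) (l : Fin q) : g l = t / q := by
  have hqR : (0 : ℝ) < q := by exact_mod_cast hq
  have h1 := sq_eq ht.le hq hg hs
  rw [hm, sub_self, mul_zero, Finset.sum_eq_zero_iff_of_nonneg (fun l _ => sq_nonneg _)] at h1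
  have h2 := h1 l (mem_univ l)
  have h3 : √(g l) = √(t / q) := by
    have := pow_eq_zero_iff (two_ne_zero) |>.1 h2
    linarith
  exact (Real.sqrt_inj (hg l) (by positivity)).1 h3

theorem sum_const_q (hq : 0 < q) (t : ℝ) : ∑ _l : Fin q, t / q = t := by
  have hqR : (0 : ℝ) < q := by exact_mod_cast hq
  rw [Finset.sum_const, Finset.card_univ, Fintype.card_fin, nsmul_eq_mul, mul_div_cancel₀ _ hqR.ne']

section main2

variable {κ₁ : ℝ} (hq : 1 ≤ q) (hκ₁ : κ₁ ≤ 1) (h4 : S_BIGQ K q κ₁) {T : Set (Pr K)}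
  (hT : T.Finite) {α : Fin q → Fin 2 → K} (hα0 : ∀ i, α i ≠ 0)
  (hα : ∀ i j, i ≠ j → α i 0 * α j 1 - α i 1 * α j 0 ≠ 0)
  {N : Fin q → Projectivization K (Fin 2 → K) → ℝ} {C : ℝ} (hN : Cnt T α N C)

include hq hκ₁ h4 hT hα0 hα hN

/-- the typical structure of the points with a small counting function -/
theorem voj {t : ℝ} (ht0 : 0 < t) (ht1 : t < κ₁) (c : ℝ) {ε : ℝ} (hε : 0 < ε) :
    ∃ δ : ℝ, 0 < δ ∧ ∀ᶠ B : ℝ in atTop, ((VB N α t c ε B).ncard : ℝ) ≤
      Real.exp (-(δ * √(Real.log B / Real.log (Real.log B)))) * ((VJ N α t c B).ncard : ℝ) := by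
  classical
  have hd : (0 : ℝ) < finrank ℚ K := fin_pos
  have hq0 : 0 < q := hq
  have hqR : (0 : ℝ) < q := by exact_mod_cast hq0
  have htq : 0 < t / q := by positivity
  have htq1 : t / q < 1 := by
    rw [div_lt_one hqR]
    have : (1 : ℝ) ≤ q := by exact_mod_cast hq
    linarith
  obtain ⟨A, hA⟩ : ∃ A : ℝ, A = |c| / q := ⟨_, rfl⟩
  have hA0 : 0 ≤ A := by rw [hA]; positivity
  have hAq : q * A = |c| := by rw [hA, mul_div_cancel₀ _ hqR.ne']
  -- the shifted counting functions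
  have hN' : Cnt T α (fun l P => N l P - A) (C + A) := by
    intro P hP l
    have h := hN P hP l
    have e : N l P - A - ncl T (α l) P = (N l P - ncl T (α l) P) - A := by ring
    rw [e]
    refine (abs_sub _ _).trans ?_
    rw [abs_of_nonneg hA0]
    linarith
  obtain ⟨κ, hκ⟩ : ∃ κ : Fin q → ℝ, κ = fun _ => t / q := ⟨_, rfl⟩
  have hκ0 : ∀ l, 0 ≤ κ l := fun l => by rw [hκ]; exact htq.le
  have hκs : ∑ l, κ l = t := by rw [hκ]; exact sum_const_q hq0 t
  have hκr : ∑ l, √(κ l) = q * √(t / q) := by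
    rw [hκ, Finset.sum_const, Finset.card_univ, Fintype.card_fin, nsmul_eq_mul]
  obtain ⟨E, hE⟩ : ∃ E : Set (Fin q → ℝ), E = {g | t ≤ ∑ l, g l} := ⟨_, rfl⟩
  have hEc : IsClosed E := by
    rw [hE]
    exact isClosed_le continuous_const (by fun_prop)
  obtain ⟨ε₁, hε₁⟩ : ∃ ε₁ : ℝ, ε₁ = min (ε / 2) (min (t / q) (1 - t / q)) := ⟨_, rfl⟩
  have hε₁0 : 0 < ε₁ := by
    rw [hε₁]
    exact lt_min (by positivity) (lt_min htq (by linarith))
  have hε₁1 : ε₁ ≤ ε / 2 := by rw [hε₁]; exact min_le_left _ _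
  have hε₁2 : ε₁ ≤ t / q := by rw [hε₁]; exact (min_le_right _ _).trans (min_le_left _ _)
  have hε₁3 : ε₁ ≤ 1 - t / q := by rw [hε₁]; exact (min_le_right _ _).trans (min_le_right _ _)
  obtain ⟨U, hU⟩ : ∃ U : Set (Fin q → ℝ), U = {g | ∀ l, |g l - t / q| < ε₁} := ⟨_, rfl⟩
  have hUo : IsOpen U := by
    rw [hU]
    have e : {g : Fin q → ℝ | ∀ l, |g l - t / q| < ε₁} = ⋂ l, {g : Fin q → ℝ | |g l - t / q| < ε₁} := by
      ext g
      simp
    rw [e]
    exact isOpen_iInter_of_finite fun l => isOpen_lt (by fun_prop) continuous_const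
  obtain ⟨w, hw0, hw1, hw2⟩ := strict (E := E) (κ := κ) hEc hκ0 (by rw [hκs]; exact ht0) (by
      intro g _ g0 _ g2
      rw [hκs] at g2
      rw [hκr]
      exact max_le_q ht0 hq0 g0 g2) hUo (by
      intro g _ g0 _ g2 g3
      rw [hκs] at g2
      rw [hκr] at g3
      rw [hU]
      intro l
      rw [eq_of_max ht0 hq0 g0 g2 g3 l, sub_self, abs_zero]
      exact hε₁0)
  rw [hκr] at hw1
  obtain ⟨ε₂, hε₂⟩ : ∃ ε₂ : ℝ, ε₂ = √8 * (q * √(t / q) - w) / 4 := ⟨_, rfl⟩
  have hε₂0 : 0 < ε₂ := by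
    rw [hε₂]
    have := mul_pos s80 (sub_pos.2 hw1)
    linarith
  -- the bad points
  obtain ⟨X₁, hX₁, hup⟩ := ab_up (hfin α) (g0 (fun l P => N l P - A) α)
    (g1 (fun l P => N l P - A) α) (ub hq hκ₁ h4 hT hα0 hα hN') (E := E \ U)
    (hEc.sdiff hUo) ht0.le ht1 hκ₁ hw0 (by
      intro g hg _ _
      rw [hE] at hg
      exact hg.1) (by
      intro g hg g0 g1 g2
      exact hw2 g hg g0 g1 (by rw [hκs]; exact g2)) hε₂0
  -- all the points
  obtain ⟨X₂, hX₂, hlo⟩ := lbJ hq hT hα0 hα (-C - A) hκ0 (by rw [hκs]; exact ht0)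
    (by rw [hκs]; linarith) hε₂0
  rw [hκs, hκr] at hlo
  -- the points of small height
  obtain ⟨h₀, hh₀⟩ : ∃ h₀ : ℝ, h₀ = 2 * A / ε + 1 := ⟨_, rfl⟩
  have hh₀0 : 0 < h₀ := by rw [hh₀]; positivity
  have hh₀1 : 2 * A ≤ ε * h₀ := by
    rw [hh₀, mul_add, mul_one, mul_div_cancel₀ _ hε.ne']
    linarith
  obtain ⟨M, hM⟩ : ∃ M : ℝ, M = ((VS N α Set.univ (Real.exp h₀)).ncard : ℝ) := ⟨_, rfl⟩
  have hM0 : 0 ≤ M := by rw [hM]; exact Nat.cast_nonneg _
  have hbad : ∀ L : ℝ, ((VB N α t c ε (Real.exp L)).ncard : ℝ) ≤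
      ((AS (HP α) (gP (fun l P => N l P - A) α) (E \ U) (finrank ℚ K * L)).ncard : ℝ) + M := by
    intro L
    have hsub : VB N α t c ε (Real.exp L) ⊆
        VS (fun l P => N l P - A) α (E \ U) (Real.exp L) ∪ VS N α Set.univ (Real.exp h₀) := by
      rintro P ⟨⟨p1, p2, p3⟩, l₀, p4⟩
      rcases le_or_gt (hh P) h₀ with hs | hs
      · exact Or.inr ⟨p1, Real.exp_le_exp.2 hs, trivial⟩
      · refine Or.inl ⟨p1, p2, ?_, ?_⟩
        · have hH : 0 < hh P := by linarith
          rw [hE]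
          show t ≤ ∑ l, max 0 (min 1 (1 - (N l P - A) / hh P))
          by_cases hc : ∃ l, 1 ≤ 1 - (N l P - A) / hh P
          · obtain ⟨l, hl⟩ := hc
            have e1 : max 0 (min 1 (1 - (N l P - A) / hh P)) = 1 := by
              rw [min_eq_left hl]
              exact max_eq_right zero_le_one
            have e2 := Finset.single_le_sum
              (f := fun l => max 0 (min 1 (1 - (N l P - A) / hh P)))
              (fun l _ => le_max_left _ _) (mem_univ l)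
            simp only [e1] at e2
            linarith
          · push Not at hc
            have e1 : ∀ l, 1 - (N l P - A) / hh P ≤ max 0 (min 1 (1 - (N l P - A) / hh P)) := by
              intro l
              rw [min_eq_right (hc l).le]
              exact le_max_right _ _
            refine le_trans ?_ (Finset.sum_le_sum fun l _ => e1 l)
            rw [Finset.sum_sub_distrib, ← Finset.sum_div, Finset.sum_sub_distrib, Finset.sum_const,
              Finset.sum_const, Finset.card_univ, Fintype.card_fin, nsmul_eq_mul, nsmul_eq_mul,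
              mul_one, hAq, le_sub_comm, div_le_iff₀ hH]
            have := le_abs_self c
            linarith
        · intro hu
          rw [hU] at hu
          have h5 : |max 0 (min 1 (1 - (N l₀ P - A) / hh P)) - t / q| < ε₁ := hu l₀
          have hH : 0 < hh P := by linarith
          rw [abs_lt] at h5
          obtain ⟨u1, u2⟩ := h5
          have e1 : max 0 (min 1 (1 - (N l₀ P - A) / hh P)) = 1 - (N l₀ P - A) / hh P := by
            rcases le_or_gt (1 - (N l₀ P - A) / hh P) 0 with k1 | k1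
            · have k2 : max 0 (min 1 (1 - (N l₀ P - A) / hh P)) = 0 :=
                max_eq_left ((min_le_right _ _).trans k1)
              rw [k2] at u1
              linarith
            · rcases le_or_gt 1 (1 - (N l₀ P - A) / hh P) with k3 | k3
              · have k4 : max 0 (min 1 (1 - (N l₀ P - A) / hh P)) = 1 := by
                  rw [min_eq_left k3]
                  exact max_eq_right zero_le_one
                rw [k4] at u2
                linarith
              · rw [min_eq_right k3.le]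
                exact max_eq_right k1.le
          rw [e1] at u1 u2
          have v1 : 1 - (N l₀ P - A) / hh P < t / q + ε / 2 := by linarith
          have v2 : t / q - ε / 2 < 1 - (N l₀ P - A) / hh P := by linarith
          have v3 : (1 - (N l₀ P - A) / hh P) * hh P = hh P - (N l₀ P - A) := by
            rw [sub_mul, one_mul, div_mul_cancel₀ _ hH.ne']
          have v4 := mul_lt_mul_of_pos_right v1 hH
          have v5 := mul_lt_mul_of_pos_right v2 hH
          rw [v3] at v4 v5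
          have v6 : ε * h₀ ≤ ε * hh P := mul_le_mul_of_nonneg_left hs.le hε.le
          apply absurd p4
          rw [not_lt, abs_le]
          constructor
          · linarith
          · linarith
    have h5 := Set.ncard_le_ncard hsub ((VS_finite _ α _ _).union (VS_finite _ α _ _))
    have h6 := Set.ncard_union_le (VS (fun l P => N l P - A) α (E \ U) (Real.exp L))
      (VS N α Set.univ (Real.exp h₀))
    rw [VS_card (fun l P => N l P - A) α (E \ U) (Real.exp_pos L), Real.log_exp] at h6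
    rw [hM]
    exact_mod_cast h5.trans h6
  have hall : ∀ L : ℝ, ((JV T α κ (-C - A) (Real.exp L)).ncard : ℝ) ≤
      ((VJ N α t c (Real.exp L)).ncard : ℝ) := by
    intro L
    have hsub : JV T α κ (-C - A) (Real.exp L) ⊆ VJ N α t c (Real.exp L) := by
      rintro P ⟨p1, p2, p3⟩
      refine ⟨p1, p2, ?_⟩
      have h5 : ∀ l, N l P ≤ (1 - t / q) * hh P - A := by
        intro l
        have h6 := p3 l
        have h7 := (le_abs_self _).trans (hN P p1 l)
        rw [hκ] at h6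
        linarith
      refine (Finset.sum_le_sum fun l _ => h5 l).trans ?_
      rw [Finset.sum_const, Finset.card_univ, Fintype.card_fin, nsmul_eq_mul, mul_sub, hAq,
        ← mul_assoc, mul_sub, mul_one, mul_div_cancel₀ _ hqR.ne']
      have := neg_abs_le c
      linarith
    exact_mod_cast Set.ncard_le_ncard hsub (VJ_finite N α t c _)
  -- the comparison
  have ev := ((Pool.Agent.N906.RS.small (Real.log (1 + M))).eventually_le_const hε₂0).and
    (Real.tendsto_log_atTop.eventually_ge_atTop 1)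
  obtain ⟨X₃, hX₃⟩ := eventually_atTop.1 ev
  have hfinal : ∀ X : ℝ, max (max X₁ X₂) (max X₃ 2) ≤ X →
      ((VB N α t c ε (Real.exp (X / finrank ℚ K))).ncard : ℝ) ≤
        Real.exp (-(ε₂ * √(X / Real.log X))) *
          ((VJ N α t c (Real.exp (X / finrank ℚ K))).ncard : ℝ) := by
    intro X hX
    have hXX₁ : X₁ ≤ X := (le_max_left _ _).trans ((le_max_left _ _).trans hX)
    have hXX₂ : X₂ ≤ X := (le_max_right _ _).trans ((le_max_left _ _).trans hX)
    have hXX₃ : X₃ ≤ X := (le_max_left _ _).trans ((le_max_right _ _).trans hX)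
    have hX2 : 2 ≤ X := (le_max_right _ _).trans ((le_max_right _ _).trans hX)
    obtain ⟨hsm, hlX⟩ := hX₃ X hXX₃
    have hV0 : 0 < √(X / Real.log X) := Real.sqrt_pos.2 (div_pos (by linarith) (by linarith))
    rw [div_le_iff₀ hV0] at hsm
    have k1 := hbad (X / finrank ℚ K)
    have k2 := hall (X / finrank ℚ K)
    rw [mul_div_cancel₀ _ hd.ne'] at k1
    have k3 := hup X hXX₁
    have k4 := (hlo X hXX₂).trans k2
    obtain ⟨V, hV⟩ : ∃ V : ℝ, V = √(X / Real.log X) := ⟨_, rfl⟩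
    rw [← hV] at hsm k3 k4 hV0 ⊢
    have hone : (1 : ℝ) ≤ Real.exp ((2 - t) * X + (√8 * w + ε₂) * V) := by
      apply Real.one_le_exp
      have a1 : 0 ≤ (2 - t) * X := mul_nonneg (by linarith) (by linarith)
      have a2 : 0 ≤ (√8 * w + ε₂) * V := by positivity
      linarith
    have k5 : ((VB N α t c ε (Real.exp (X / finrank ℚ K))).ncard : ℝ) ≤
        Real.exp ((2 - t) * X + (√8 * w + ε₂) * V + ε₂ * V) := by
      calc ((VB N α t c ε (Real.exp (X / finrank ℚ K))).ncard : ℝ)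
          ≤ Real.exp ((2 - t) * X + (√8 * w + ε₂) * V) + M := by linarith
        _ ≤ Real.exp ((2 - t) * X + (√8 * w + ε₂) * V) * (1 + M) := by
            have := mul_le_mul_of_nonneg_right hone hM0
            linarith
        _ = Real.exp ((2 - t) * X + (√8 * w + ε₂) * V + Real.log (1 + M)) := by
            rw [Real.exp_add _ (Real.log (1 + M)), Real.exp_log (by linarith)]
        _ ≤ _ := by
            apply Real.exp_le_exp.2
            linarith
    refine k5.trans ?_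
    have k6 := mul_le_mul_of_nonneg_left k4 (Real.exp_pos (-(ε₂ * V))).le
    refine le_trans ?_ k6
    rw [← Real.exp_add]
    apply Real.exp_le_exp.2
    have e : √8 * (q * √(t / q)) = √8 * w + 4 * ε₂ := by rw [hε₂]; ring
    have e' : √8 * (q * √(t / q)) * V = √8 * w * V + 4 * ε₂ * V := by rw [e]; ring
    linarith
  obtain ⟨δ', hδ', L₀, h5⟩ := exp_scale hd
    (N := fun X => ((VB N α t c ε (Real.exp (X / finrank ℚ K))).ncard : ℝ))
    (M := fun X => ((VJ N α t c (Real.exp (X / finrank ℚ K))).ncard : ℝ))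
    (fun _ => Nat.cast_nonneg _) hε₂0 hfinal
  refine ⟨δ', hδ', ?_⟩
  filter_upwards [eventually_gt_atTop (0 : ℝ), Real.tendsto_log_atTop.eventually_ge_atTop L₀]
    with B hB hL
  have h6 := h5 _ hL
  rw [mul_div_cancel_left₀ _ hd.ne', Real.exp_log hB] at h6
  exact h6

end main2

end Run7.h585.VL
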