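import Pool.Agent.Run7.h585.LD.AbsLim
import Pool.Agent.Run7.h585.LD.Unif
import Pool.Agent.N906.QP.All

/-!
# The truncated counting functions of `q` points of the projective line: bounds for orthants

Let `N l P` be functions of the point `P` at a bounded distance from `N_T^{(1)}(α l, P)`. The gain of
`P` at `α l` is `1 - N l P / h(P)`, cut off at `0` and `1`. We prove the hypotheses `UB`, `LB` of
`Pool/Agent/Run7/h585/LD/Abs.lean` for the gains. The translation is that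
of `Pool/Agent/N401/QP_FINJ.lean`. Written by helper585.
-/

set_option autoImplicit false

namespace Run7.h585.VL

open NumberField IsDedekindDomain Finset Filter Topology Module
open Pool.Agent.H691R3 Pool.Agent.W223.AK Pool.Agent.N906.KG Pool.Agent.N170.KG
open Pool.Agent.N401.QP
open Run7.h585.LD Run7.h585.LD.Abs

variable {K : Type} [Field K] [NumberField K] {q : ℕ}

/-- the gains at `P` -/
noncomputable def gn (N : Fin q → Projectivization K (Fin 2 → K) → ℝ)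
    (P : Projectivization K (Fin 2 → K)) (l : Fin q) : ℝ :=
  max 0 (min 1 (1 - N l P / hh P))

/-- `N` is a counting function -/
def Cnt (T : Set (Pr K)) (α : Fin q → Fin 2 → K) (N : Fin q → Projectivization K (Fin 2 → K) → ℝ)
    (C : ℝ) : Prop := ∀ P, Off1 α P → ∀ l, |N l P - ncl T (α l) P| ≤ C

/-- the points of the line different from the `α l` -/
def PT (α : Fin q → Fin 2 → K) : Type := {p : Projectivization K (Fin 2 → K) // Off1 α p}

/-- the height relative to `ℚ` -/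
noncomputable def HP (α : Fin q → Fin 2 → K) (p : PT α) : ℝ := finrank ℚ K * hh p.1

/-- the gains -/
noncomputable def gP (N : Fin q → Projectivization K (Fin 2 → K) → ℝ) (α : Fin q → Fin 2 → K)
    (p : PT α) : Fin q → ℝ :=
  gn N p.1

theorem hP_eq (α : Fin q → Fin 2 → K) (p : PT α) : HP α p = Height.logHeight p.1.rep := by
  unfold HP hh
  rw [mul_div_cancel₀ _ (fin_pos (K := K)).ne']

theorem hP_nonneg (α : Fin q → Fin 2 → K) (p : PT α) : 0 ≤ HP α p := by
  rw [hP_eq]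
  exact Height.logHeight_nonneg _

theorem hh_nonneg (P : Projectivization K (Fin 2 → K)) : 0 ≤ hh P :=
  div_nonneg (Height.logHeight_nonneg _) (Nat.cast_nonneg _)

theorem g0 (N : Fin q → Projectivization K (Fin 2 → K) → ℝ) (α : Fin q → Fin 2 → K) (p : PT α)
    (l : Fin q) : 0 ≤ gP N α p l :=
  le_max_left _ _

theorem g1 (N : Fin q → Projectivization K (Fin 2 → K) → ℝ) (α : Fin q → Fin 2 → K) (p : PT α)
    (l : Fin q) : gP N α p l ≤ 1 :=
  max_le zero_le_one (min_le_left _ _)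

theorem hfin (α : Fin q → Fin 2 → K) (X : ℝ) : {p : PT α | HP α p ≤ X}.Finite := by
  have h := (pts_finite K X).preimage (f := fun p : PT α => p.1)
    (Subtype.val_injective.injOn)
  refine h.subset fun (p : PT α) hp => ?_
  have h1 : HP α p ≤ X := hp
  exact (hP_eq α p).symm.trans_le h1

theorem sum_sqrt (κ : Fin q → ℝ) (hκ : ∀ l, 0 ≤ κ l) (X : ℝ) :
    ∑ l, √(8 * κ l * X / Real.log X) = √8 * (∑ l, √(κ l)) * √(X / Real.log X) := by
  rw [mul_assoc, Finset.sum_mul, Finset.mul_sum]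
  refine Finset.sum_congr rfl fun l _ => ?_
  rw [← Real.sqrt_mul (hκ l), ← Real.sqrt_mul (by norm_num)]
  congr 1
  ring

/-- the general bound for the radical -/
theorem rl_gen {α : Fin q → K × K} (hα : Al α) {S : Finset (Pr K)} {x : K} (hx : Of α x)
    {P : Fin q → Idl K} (hP : IsP S α x P) (l : Fin q) :
    rl (P l) ≤ hr (aff x) + (∑ l, |hr (α l)| + ∑ v ∈ Spl S, loss v) := by
  have h1 := Pool.Agent.N954.KG.sum_formula hα hx hP l
  have h2 : -∑ v ∈ Spl S, loss v ≤ ∑ v ∈ Spl S, lam v (aff x) (α l) := by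
    rw [← Finset.sum_neg_distrib]
    exact Finset.sum_le_sum fun v _ =>
      lam_ge v (aff_ne_zero x) (hα.1 l) (Pool.Agent.N954.KG.of_wedge hx l)
  have h3 : hr (α l) ≤ ∑ l, |hr (α l)| :=
    (le_abs_self _).trans (Finset.single_le_sum (f := fun l => |hr (α l)|)
      (fun l _ => abs_nonneg _) (mem_univ l))
  have h4 := rl_le_len (P l)
  linarith

omit [NumberField K] in
theorem loss_nonneg (v : Pl K) : 0 ≤ loss v := by
  rcases v with w | v
  · show 0 ≤ (w.mult : ℝ) * Real.log 2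
    exact mul_nonneg (Nat.cast_nonneg _) (Real.log_nonneg (by norm_num))
  · exact le_refl (0 : ℝ)

/-- the upper bound for orthants -/
theorem ub {κ₁ : ℝ} (hq : 1 ≤ q) (hκ₁ : κ₁ ≤ 1) (h4 : S_BIGQ K q κ₁) {T : Set (Pr K)}
    (hT : T.Finite) {α : Fin q → Fin 2 → K} (hα0 : ∀ i, α i ≠ 0)
    (hα : ∀ i j, i ≠ j → α i 0 * α j 1 - α i 1 * α j 0 ≠ 0)
    {N : Fin q → Projectivization K (Fin 2 → K) → ℝ} {C : ℝ} (hN : Cnt T α N C) :
    UB (HP α) (gP N α) κ₁ := by
  classical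
  intro δ ε hδ hε
  have hd : (0 : ℝ) < finrank ℚ K := fin_pos
  have hA := al_pr hα0 hα
  obtain ⟨⟨S₁, hS₁⟩, hA2⟩ := basq_all K q (pr α) hq hA
  obtain ⟨S, hS⟩ : ∃ S : Finset (Pr K), S = S₁ ∪ hT.toFinset := ⟨_, rfl⟩
  have hTS : T ⊆ ↑S := by
    intro v hv
    rw [hS, coe_union]
    exact Or.inr (mem_coe.2 (hT.mem_toFinset.2 hv))
  have hGα : Gd S (pr α) := hS₁ S (by rw [hS]; exact subset_union_left)
  obtain ⟨C₁, -, hA3⟩ := hA2 _ hGα
  obtain ⟨C₀, hC₀⟩ : ∃ C₀ : ℝ, C₀ = ∑ l, |hr (pr α l)| + ∑ v ∈ Spl S, loss v := ⟨_, rfl⟩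
  have hC₀0 : 0 ≤ C₀ := by
    rw [hC₀]
    exact add_nonneg (Finset.sum_nonneg fun _ _ => abs_nonneg _)
      (Finset.sum_nonneg fun v _ => loss_nonneg v)
  have hC₁0 : 0 ≤ finrank ℚ K * |C| := by positivity
  obtain ⟨X₁, hX₁, hup⟩ := upju K q κ₁ hq hκ₁ (basq_all K) (cellq_all K) (rank_all K) h4 (pr α) S
    δ (ε / 2) (C₀ + finrank ℚ K * |C|) hA hGα hδ (half_pos hε) (add_nonneg hC₀0 hC₁0)
  have ev := ((Pool.Agent.N906.RS.small 1).eventually_le_const
    (show (0 : ℝ) < ε / 2 by positivity)).and (Real.tendsto_log_atTop.eventually_ge_atTop 1)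
  obtain ⟨X₀, hX₀⟩ := eventually_atTop.1 ev
  refine ⟨max (max X₀ X₁) 2, lt_max_of_lt_right (by norm_num), fun X hX κ hκ0 hκl F hF => ?_⟩
  obtain ⟨hsm, hlX⟩ := hX₀ X ((le_max_left _ _).trans ((le_max_left _ _).trans hX))
  have hXX₁ : X₁ ≤ X := (le_max_right _ _).trans ((le_max_left _ _).trans hX)
  have hX2 : 2 ≤ X := (le_max_right _ _).trans hX
  have hX0 : 0 ≤ X := by linarith
  have hV0 : 0 < √(X / Real.log X) := Real.sqrt_pos.2 (div_pos (by linarith) (by linarith))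
  rw [div_le_iff₀ hV0] at hsm
  have h := hup X hXX₁ κ hκ0 hκl
  rw [sum_sqrt κ hκ0] at h
  obtain ⟨V, hV⟩ : ∃ V : ℝ, V = √(X / Real.log X) := ⟨_, rfl⟩
  rw [← hV] at hsm h hV0 ⊢
  obtain ⟨F₁, hF₁⟩ : ∃ F₁ : Finset (PT α), F₁ = F.filter (fun p => p.1.rep 1 ≠ 0) := ⟨_, rfl⟩
  obtain ⟨F₂, hF₂⟩ : ∃ F₂ : Finset (PT α), F₂ = F.filter (fun p => ¬ p.1.rep 1 ≠ 0) := ⟨_, rfl⟩
  have hsplit : F.card = F₁.card + F₂.card := by
    rw [hF₁, hF₂]
    exact (Finset.card_filter_add_card_filter_not (s := F) (fun p => p.1.rep 1 ≠ 0)).symm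
  have hc2 : F₂.card ≤ 1 := by
    rw [card_le_one]
    intro a ha b hb
    rw [hF₂, mem_filter, not_not] at ha hb
    exact Subtype.ext (rep_inf ha.2 hb.2)
  have hc1 : (F₁.card : ℝ) ≤ Real.exp ((2 - ∑ l, κ l) * X + √8 * (∑ l, √(κ l)) * V +
      ε / 2 * V) := by
    rw [← card_image_of_injOn (s := F₁) (f := fun p => p.1.rep 0 / p.1.rep 1)]
    · refine h _ ?_
      intro x hx
      obtain ⟨p, hp, rfl⟩ := mem_image.1 hx
      rw [hF₁, mem_filter] at hp
      obtain ⟨hpF, k1⟩ := hp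
      obtain ⟨m1, m2⟩ := hF p hpF
      have o1 := of_rep k1 p.2
      obtain ⟨P, hP⟩ := (hA3 _ o1).1
      have e1 : HP α p = hr (aff (p.1.rep 0 / p.1.rep 1)) := by rw [hP_eq, ht_rep]
      refine ⟨o1, by rw [← e1]; exact m1, P, hP, fun l => ?_⟩
      have hgen := rl_gen hA o1 hP l
      rw [← hC₀, ← e1] at hgen
      rw [← e1]
      have hH := hP_nonneg α p
      rcases le_or_gt (κ l) 0 with hk | hk
      · have : κ l = 0 := le_antisymm hk (hκ0 l)
        rw [this]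
        linarith
      · rcases hH.eq_or_lt with h0 | h0
        · rw [← h0] at hgen ⊢
          linarith
        · have hh0 : 0 < hh p.1 := by
            unfold HP at h0
            exact (mul_pos_iff_of_pos_left hd).1 h0
          have m3 : κ l ≤ max 0 (min 1 (1 - N l p.1 / hh p.1)) := m2 l
          have m4 : κ l ≤ 1 - N l p.1 / hh p.1 := by
            rcases le_max_iff.1 m3 with h5 | h5
            · linarith
            · exact h5.trans (min_le_right _ _)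
          have m5 : N l p.1 / hh p.1 ≤ 1 - κ l := by linarith
          rw [div_le_iff₀ hh0] at m5
          have m6 := (ncl_bounds hTS hα0 k1 p.2 hP l).1
          have m9 := (neg_abs_le _).trans' (neg_le_neg (hN p.1 p.2 l))
          have m10 := le_abs_self C
          have m7 := mul_le_mul_of_nonneg_left
            (show ncl T (α l) p.1 ≤ (1 - κ l) * hh p.1 + |C| by linarith) hd.le
          have m8 : (finrank ℚ K : ℝ) * ((1 - κ l) * hh p.1 + |C|) =
              (1 - κ l) * HP α p + finrank ℚ K * |C| := by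
            unfold HP
            ring
          rw [m8] at m7
          linarith
    · intro p hp p' hp' e
      rw [hF₁, mem_coe, mem_filter] at hp hp'
      exact Subtype.ext (rep_eq_of hp.2 hp'.2 e)
  have hs : (F.card : ℝ) ≤ F₁.card + 1 := by
    rw [hsplit]
    exact_mod_cast Nat.add_le_add_left hc2 _
  have hκs : ∑ l, κ l ≤ 1 := by linarith
  have hsg : 0 ≤ √8 * (∑ l, √(κ l)) * V := by
    have : 0 ≤ ∑ l, √(κ l) := Finset.sum_nonneg fun _ _ => Real.sqrt_nonneg _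
    positivity
  have h2X : 0 ≤ (2 - ∑ l, κ l) * X := mul_nonneg (by linarith) hX0
  have hεV : 0 ≤ ε / 2 * V := by positivity
  have hone : (1 : ℝ) ≤ Real.exp ((2 - ∑ l, κ l) * X + √8 * (∑ l, √(κ l)) * V + ε / 2 * V) :=
    Real.one_le_exp (by linarith)
  have hexp1 : (2 : ℝ) ≤ Real.exp 1 := by
    have h2 := Real.exp_one_gt_d9
    linarith
  calc (F.card : ℝ) ≤ Real.exp ((2 - ∑ l, κ l) * X + √8 * (∑ l, √(κ l)) * V + ε / 2 * V) * 2 := by
        linarith
    _ ≤ Real.exp ((2 - ∑ l, κ l) * X + √8 * (∑ l, √(κ l)) * V + ε / 2 * V) * Real.exp 1 :=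
        mul_le_mul_of_nonneg_left hexp1 (Real.exp_pos _).le
    _ = Real.exp ((2 - ∑ l, κ l) * X + √8 * (∑ l, √(κ l)) * V + ε / 2 * V + 1) := by
        rw [← Real.exp_add]
    _ ≤ _ := by
        apply Real.exp_le_exp.2
        linarith

/-- many points with given bounds for the counting functions -/
theorem lbJ {T : Set (Pr K)} (hq : 1 ≤ q) (hT : T.Finite) {α : Fin q → Fin 2 → K}
    (hα0 : ∀ i, α i ≠ 0) (hα : ∀ i j, i ≠ j → α i 0 * α j 1 - α i 1 * α j 0 ≠ 0) (c : ℝ)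
    {κ : Fin q → ℝ} (hκ0 : ∀ l, 0 ≤ κ l) (hκs : 0 < ∑ l, κ l) (hκs1 : ∑ l, κ l < 1) {ε : ℝ}
    (hε : 0 < ε) : ∃ X₀ : ℝ, 1 < X₀ ∧ ∀ X : ℝ, X₀ ≤ X →
      Real.exp ((2 - ∑ l, κ l) * X + √8 * (∑ l, √(κ l)) * √(X / Real.log X) -
        ε * √(X / Real.log X)) ≤ ((JV T α κ c (Real.exp (X / finrank ℚ K))).ncard : ℝ) := by
  have hd : (0 : ℝ) < finrank ℚ K := fin_pos
  obtain ⟨ε', hε'⟩ : ∃ ε' : ℝ, ε' = min (1 / 2) (ε / (3 * q + 1)) := ⟨_, rfl⟩
  have hε'0 : 0 < ε' := by rw [hε']; exact lt_min (by norm_num) (by positivity)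
  have hε'1 : ε' < 1 := by rw [hε']; exact (min_le_left _ _).trans_lt (by norm_num)
  have hε'2 : ε' * (3 * q + 1) ≤ ε := by
    have : ε' ≤ ε / (3 * q + 1) := by rw [hε']; exact min_le_right _ _
    rwa [le_div_iff₀ (by positivity)] at this
  obtain ⟨X₀, hX₀, hlo⟩ := lowerJ (basq_all K) (loj_all K) hq hT (κ := κ) c hα0 hα hκ0 hκs
    hκs1 hε'0 hε'1
  refine ⟨X₀, hX₀, fun X hX => ?_⟩
  have e1 : (finrank ℚ K : ℝ) * (X / finrank ℚ K) = X := mul_div_cancel₀ _ hd.ne'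
  have h := hlo (X / finrank ℚ K) (by rw [e1]; exact hX)
  rw [e1, sum_sqrt κ hκ0] at h
  have hV0 : 0 ≤ √(X / Real.log X) := Real.sqrt_nonneg _
  obtain ⟨V, hV⟩ : ∃ V : ℝ, V = √(X / Real.log X) := ⟨_, rfl⟩
  rw [← hV] at h hV0 ⊢
  have hκ1 : ∀ l, κ l ≤ 1 := fun l =>
    (Finset.single_le_sum (f := κ) (fun l _ => hκ0 l) (mem_univ l)).trans (by linarith)
  have hsq : ε' * (√8 * (∑ l, √(κ l)) * V) ≤ ε * V := by
    have h1 : √8 * (∑ l, √(κ l)) ≤ 3 * q :=
      mul_le_mul s8 (sgq hκ1) (Finset.sum_nonneg fun _ _ => Real.sqrt_nonneg _) (by norm_num)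
    calc ε' * (√8 * (∑ l, √(κ l)) * V) ≤ ε' * (3 * q * V) := by
          apply mul_le_mul_of_nonneg_left _ hε'0.le
          exact mul_le_mul_of_nonneg_right h1 hV0
      _ ≤ ε' * (3 * q + 1) * V := by
          have := mul_nonneg hε'0.le hV0
          linarith
      _ ≤ _ := mul_le_mul_of_nonneg_right hε'2 hV0
  refine le_trans ?_ h
  apply Real.exp_le_exp.2
  linarith

/-- the lower bound for orthants -/
theorem lb {κ₁ : ℝ} (hq : 1 ≤ q) (hκ₁ : κ₁ ≤ 1) {T : Set (Pr K)}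
    (hT : T.Finite) {α : Fin q → Fin 2 → K} (hα0 : ∀ i, α i ≠ 0)
    (hα : ∀ i j, i ≠ j → α i 0 * α j 1 - α i 1 * α j 0 ≠ 0)
    {N : Fin q → Projectivization K (Fin 2 → K) → ℝ} {C : ℝ} (hN : Cnt T α N C) :
    LB (HP α) (gP N α) κ₁ := by
  classical
  intro κ ε hκ0 hκs hκs1 hε
  have hd : (0 : ℝ) < finrank ℚ K := fin_pos
  obtain ⟨X₀, hX₀, hlo⟩ := lbJ hq hT hα0 hα (-C) hκ0 hκs (hκs1.trans_le hκ₁) hε
  refine ⟨X₀, hX₀, fun X hX => (hlo X hX).trans ?_⟩
  have hκ1 : ∀ l, κ l ≤ 1 := fun l =>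
    (Finset.single_le_sum (f := κ) (fun l _ => hκ0 l) (mem_univ l)).trans (by linarith)
  have hsub : JV T α κ (-C) (Real.exp (X / finrank ℚ K)) ⊆
      (Subtype.val : PT α → _) '' (AS (HP α) (gP N α) {x | ∀ l, κ l ≤ x l} X) := by
    rintro P ⟨m1, m2, m3⟩
    refine ⟨⟨P, m1⟩, ⟨?_, fun l => ?_⟩, rfl⟩
    · rw [Real.exp_le_exp, le_div_iff₀ hd] at m2
      show (finrank ℚ K : ℝ) * hh P ≤ X
      linarith
    · show κ l ≤ max 0 (min 1 (1 - N l P / hh P))
      refine le_max_of_le_right (le_min (hκ1 l) ?_)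
      rcases (hh_nonneg P).eq_or_lt with h0 | h0
      · rw [← h0, div_zero, sub_zero]
        exact hκ1 l
      · have m4 := m3 l
        have m5 := (le_abs_self _).trans (hN P m1 l)
        have m6 : N l P ≤ (1 - κ l) * hh P := by linarith
        rw [← div_le_iff₀ h0] at m6
        linarith
  have hfinS := as_finite (g := gP N α) (hfin α) {x | ∀ l, κ l ≤ x l} X
  have hc := Set.ncard_le_ncard hsub (hfinS.image _)
  rw [Set.ncard_image_of_injective _ Subtype.val_injective] at hc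
  exact_mod_cast hc

end Run7.h585.VL
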